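import Pool.Agent.Work.MP_d87e04_lc.PDefs

/-!
# Innermost normalization: definitions

Definitions used by the hand-in `MP_d87e04_lc.InnermostNormalizing`.
-/

set_option autoImplicit false

namespace Pool.Agent.Work.MP_d87e04_lc.WI

open Pool.Agent.Work.MP_d87e04_lc Relation

universe u

variable {F : Type u} {ar : F → ℕ}

/-- `t` arises from `s` by replacing subterms at pairwise disjoint positions, each by one root step
in one of the two directions. -/
inductive Dis (R : Set (Rule F ar)) : Tm F ar → Tm F ar → Prop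
  | refl (t : Tm F ar) : Dis R t t
  | fwd {q : Rule F ar} (hq : q ∈ R) (σ : ℕ → Tm F ar) : Dis R (q.1.subst σ) (q.2.subst σ)
  | bwd {q : Rule F ar} (hq : q ∈ R) (σ : ℕ → Tm F ar) : Dis R (q.2.subst σ) (q.1.subst σ)
  | args {f : F} {a b : Fin (ar f) → Tm F ar} (h : ∀ i, Dis R (a i) (b i)) :
      Dis R (Tm.app f a) (Tm.app f b)

/-- Normal forms. -/
def Normal (R : Set (Rule F ar)) (t : Tm F ar) : Prop := ∀ t', ¬ Step R t t'

/-- Innermost steps: the proper subterms of the contracted redex are normal forms. -/
inductive IStep (R : Set (Rule F ar)) : Tm F ar → Tm F ar → Prop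
  | root {q : Rule F ar} (hq : q ∈ R) (σ : ℕ → Tm F ar)
      (h : ∀ s : Tm F ar, s.ProperSub (q.1.subst σ) → Normal R s) :
      IStep R (q.1.subst σ) (q.2.subst σ)
  | arg {f : F} (a : Fin (ar f) → Tm F ar) (i : Fin (ar f)) {t : Tm F ar}
      (h : IStep R (a i) t) : IStep R (Tm.app f a) (Tm.app f (Function.update a i t))

/-- Many innermost steps. -/
abbrev ISteps (R : Set (Rule F ar)) : Tm F ar → Tm F ar → Prop := ReflTransGen (IStep R)

/-- `t` has a normal form which is reached by innermost steps. -/
def InnNormalizing (R : Set (Rule F ar)) (t : Tm F ar) : Prop := ∃ v, ISteps R t v ∧ Normal R v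

end Pool.Agent.Work.MP_d87e04_lc.WI
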