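import Pool.Agent.Work.MP_d87e04_lc.WI.WDefs

/-!
# Innermost normalization: the proof

`Ev t n v`: there is an innermost reduction of `t` to the normal form `v` with `n` steps (arguments
first, then the root). Main lemma: if `x` and `y` differ by steps at disjoint positions, in any
direction, then innermost reductions of `x` and of `y` to normal forms end in the same term.
Induction on the sum of the two lengths, then on the structure. The case of one root step
`l σ → r σ`: if the value `σ x` of a variable of `l` is not a normal form it is replaced by its normal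
form, in `l σ` and in `r σ` (left-linearity, and uniqueness for `σ x`); otherwise the first step in `l σ`
is at a non-variable position of `l`, and its result and `r σ` form an instance of a critical pair.
-/

set_option autoImplicit false

namespace Pool.Agent.Work.MP_d87e04_lc.WI

open Pool.Agent.Work.MP_d87e04_lc Relation

universe u

variable {F : Type u} {ar : F → ℕ}

/-- innermost evaluation, arguments first, with the number of steps -/
inductive Ev (R : Set (Rule F ar)) : Tm F ar → ℕ → Tm F ar → Prop
  | var (x : ℕ) : Ev R (Tm.var x) 0 (Tm.var x)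
  | nf {f : F} {a v : Fin (ar f) → Tm F ar} {n : Fin (ar f) → ℕ}
      (h : ∀ i, Ev R (a i) (n i) (v i)) (hn : ∀ y, ¬ RootStep R (Tm.app f v) y) :
      Ev R (Tm.app f a) (∑ i, n i) (Tm.app f v)
  | red {f : F} {a v : Fin (ar f) → Tm F ar} {n : Fin (ar f) → ℕ} {m : ℕ} {y w : Tm F ar}
      (h : ∀ i, Ev R (a i) (n i) (v i)) (hr : RootStep R (Tm.app f v) y)
      (h2 : Ev R y m w) : Ev R (Tm.app f a) (∑ i, n i + 1 + m) w

variable {R : Set (Rule F ar)}

theorem Dis.symm {x y : Tm F ar} (h : Dis R x y) : Dis R y x := by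
  induction h with
  | refl t => exact Dis.refl t
  | fwd hq σ => exact Dis.bwd hq σ
  | bwd hq σ => exact Dis.fwd hq σ
  | args _ ih => exact Dis.args ih

theorem Dis.subst {x y : Tm F ar} (h : Dis R x y) (σ : ℕ → Tm F ar) :
    Dis R (x.subst σ) (y.subst σ) := by
  induction h with
  | refl t => exact Dis.refl _
  | fwd hq τ =>
    rw [Tm.subst_subst, Tm.subst_subst]
    exact Dis.fwd hq _
  | bwd hq τ =>
    rw [Tm.subst_subst, Tm.subst_subst]
    exact Dis.bwd hq _
  | args _ ih =>
    simp only [Tm.subst_app]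
    exact Dis.args ih

theorem Dis.of_step {x y : Tm F ar} (h : Step R x y) : Dis R x y := by
  induction h with
  | root hq σ => exact Dis.fwd hq σ
  | @arg f a i t _ ih =>
    refine Dis.args fun j => ?_
    by_cases hj : j = i
    · subst hj
      rw [Function.update_self]
      exact ih
    · rw [Function.update_of_ne hj]
      exact Dis.refl _

theorem Dis.of_par {x y : Tm F ar} (h : Par R x y) : Dis R x y := by
  induction h with
  | refl t => exact Dis.refl t
  | root hq σ => exact Dis.fwd hq σ
  | args _ ih => exact Dis.args ih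

/-- The overlap lemma: the only use of the condition on critical pairs. -/
theorem overlapD (hR : IsTRS R) (hL : LeftLinear R) (hC : ∀ t s, CriticalPair R t s → Dis R s t)
    {q : Rule F ar} (hq : q ∈ R) {σ : ℕ → Tm F ar} {y : Tm F ar} (h : NV R q.1 σ y) :
    Dis R (q.2.subst σ) y := by
  obtain ⟨p, u, q', ψ, h1, h2, h3, h4, h5⟩ := h.pos
  -- rename apart
  let ρ₁ : ℕ → ℕ := fun x => 2 * x + 1
  let ρ₂ : ℕ → ℕ := fun x => 2 * x
  have i1 : Function.Injective ρ₁ := fun x y h => by simp only [ρ₁] at h; omega
  have i2 : Function.Injective ρ₂ := fun x y h => by simp only [ρ₂] at h; omega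
  have i12 : ∀ x y, ρ₁ x ≠ ρ₂ y := fun x y h => by simp only [ρ₁, ρ₂] at h; omega
  let χ : ℕ → Tm F ar := fun x => if x % 2 = 0 then σ (x / 2) else ψ (x / 2)
  have hχ2 : ∀ t : Tm F ar, (t.ren ρ₂).subst χ = t.subst σ := by
    intro t
    rw [Tm.ren, Tm.subst_subst]
    refine Tm.subst_congr t fun x _ => ?_
    simp [χ, ρ₂]
  have hχ1 : ∀ t : Tm F ar, (t.ren ρ₁).subst χ = t.subst ψ := by
    intro t
    rw [Tm.ren, Tm.subst_subst]
    refine Tm.subst_congr t fun x _ => ?_
    have : (2 * x + 1) / 2 = x := by omega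
    simp [χ, ρ₁, this]
  have hu : (q.1.ren ρ₂).subAt p = some (u.ren ρ₂) := Tm.subAt_subst _ _ _ _ h1
  have hlu : u.Linear := fun x => (Tm.subAt_linear _ _ _ h1 x).trans (hL q hq x)
  obtain ⟨θ, hθ, hθ'⟩ := Tm.exists_mgu (u.ren ρ₂) (q'.1.ren ρ₁) (hlu.ren i2)
    (Tm.Linear.ren i1 (hL q' h3)) (by
      intro x hx hx'
      obtain ⟨a, ha, _⟩ := Tm.occ_ren_pos _ hx
      obtain ⟨b, hb, _⟩ := Tm.occ_ren_pos _ hx'
      exact i12 b a (hb.trans ha.symm)) ⟨χ, by rw [hχ2, hχ1, h4]⟩
  have hun : (u.ren ρ₂).subst χ = (q'.1.ren ρ₁).subst χ := by rw [hχ2, hχ1, h4]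
  have hfac : ∀ t : Tm F ar, (t.subst θ).subst χ = t.subst χ := by
    intro t
    rw [Tm.subst_subst]
    exact Tm.subst_congr t fun x _ => hθ' χ hun x
  have hnv : ∀ x, u.ren ρ₂ ≠ Tm.var x := by
    intro x
    cases u with
    | var z => exact (h2 z rfl).elim
    | app f a => simp [Tm.ren]
  by_cases hvar : p = [] ∧ Variant q' q
  · obtain ⟨hp, π, hπ1, hπ2⟩ := hvar
    subst hp
    simp only [Tm.subAt] at h1
    have hu1 : u = q.1 := by
      cases hq1 : q.1 <;> simp only [hq1, Tm.subAt, Option.some.injEq] at h1 <;> exact h1.symm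
    rw [hu1, ← hπ1, Tm.ren, Tm.subst_subst] at h4
    have h6 := Tm.subst_inj _ h4
    have h7 : y = q'.2.subst ψ := by
      rw [h5]
      cases q.1.subst σ <;> rfl
    have h8 : y = q.2.subst σ := by
      rw [h7, ← hπ2, Tm.ren, Tm.subst_subst]
      exact Tm.subst_congr _ fun x hx => (h6 x ((hR q' h3).2 x hx)).symm
    rw [h8]
    exact Dis.refl _
  · have hcp : CriticalPair R (((q.1.ren ρ₂).subst θ).repl p ((q'.2.ren ρ₁).subst θ))
        ((q.2.ren ρ₂).subst θ) :=
      ⟨q'.1, q'.2, q.1, q.2, h3, hq, ρ₁, ρ₂, i1, i2, i12, p, u.ren ρ₂, θ, hu, hnv,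
        ⟨hθ, fun τ hτ => ⟨τ, fun x => (hθ' τ hτ x).symm⟩⟩,
        fun hp hv => hvar ⟨hp, hv⟩, rfl, rfl⟩
    have ht : (((q.1.ren ρ₂).subst θ).repl p ((q'.2.ren ρ₁).subst θ)).subst χ = y := by
      rw [Tm.repl_subst χ _ _ p _ (Tm.subAt_subst θ _ _ _ hu), hfac, hfac, hχ2, hχ1, h5]
    have hs : ((q.2.ren ρ₂).subst θ).subst χ = q.2.subst σ := by rw [hfac, hχ2]
    have h6 := (hC _ _ hcp).subst χ
    rw [ht, hs] at h6
    exact h6

/-! ## Normal forms -/

theorem not_rootStep_var (hR : IsTRS R) (x : ℕ) (y : Tm F ar) : ¬ RootStep R (Tm.var x) y := by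
  rintro ⟨q, hq, σ, h, -⟩
  cases hq1 : q.1 with
  | var z => exact (hR q hq).1 z hq1
  | app f a =>
    rw [hq1] at h
    simp at h

theorem normal_var (hR : IsTRS R) (x : ℕ) : Normal R (Tm.var x) := by
  intro y hy
  rcases step_iff.1 hy with h | ⟨f, a, i, t, h, -⟩
  · exact not_rootStep_var hR x y h
  · simp at h

theorem normal_app {f : F} {a : Fin (ar f) → Tm F ar} (h : ∀ i, Normal R (a i))
    (hn : ∀ y, ¬ RootStep R (Tm.app f a) y) : Normal R (Tm.app f a) := by
  intro y hy
  rcases step_iff.1 hy with h1 | ⟨g, b, i, t, h1, -, h3⟩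
  · exact hn y h1
  · simp only [Tm.app.injEq] at h1
    obtain ⟨hfg, h1⟩ := h1
    subst hfg
    have h1 := eq_of_heq h1
    subst h1
    exact h i t h3

theorem Normal.arg {f : F} {a : Fin (ar f) → Tm F ar} (h : Normal R (Tm.app f a)) (i : Fin (ar f)) :
    Normal R (a i) := fun t ht => h _ (Step.arg a i ht)

theorem Normal.sub {s t : Tm F ar} (h : s.ProperSub t) (ht : Normal R t) : Normal R s := by
  induction h with
  | single h1 =>
    obtain ⟨f, a, i, rfl, rfl⟩ := h1
    exact ht.arg i
  | tail _ h1 ih =>
    obtain ⟨f, a, i, rfl, rfl⟩ := h1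
    exact ih (ht.arg i)

/-! ## Evaluation -/

theorem Ev.normal (hR : IsTRS R) {t v : Tm F ar} {n : ℕ} (h : Ev R t n v) : Normal R v := by
  induction h with
  | var x => exact normal_var hR x
  | nf _ hn ih => exact normal_app ih hn
  | red _ _ _ _ ih => exact ih

theorem ev_normal (t : Tm F ar) : Normal R t → Ev R t 0 t := by
  induction t with
  | var x => intro _; exact Ev.var x
  | app f a ih =>
    intro h
    have h1 : Ev R (Tm.app f a) (∑ i : Fin (ar f), 0) (Tm.app f a) :=
      Ev.nf (n := fun _ => 0) (fun i => ih i (h.arg i)) fun y hy => h y hy.step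
    simpa using h1

/-- a normal form has no other evaluation -/
theorem Ev.of_normal {t v : Tm F ar} {n : ℕ} (h : Ev R t n v) : Normal R t → n = 0 ∧ v = t := by
  induction h with
  | var x => intro _; exact ⟨rfl, rfl⟩
  | @nf f a v n h hn ih =>
    intro ht
    have e1 : ∀ i, n i = 0 := fun i => (ih i (ht.arg i)).1
    have e2 : v = a := funext fun i => (ih i (ht.arg i)).2
    exact ⟨Finset.sum_eq_zero fun i _ => e1 i, by rw [e2]⟩
  | @red f a v n m y w h hr h2 ih ih2 =>
    intro ht
    have e2 : v = a := funext fun i => (ih i (ht.arg i)).2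
    subst e2
    exact absurd hr.step (ht y)

theorem Ev.zero {t v : Tm F ar} {n : ℕ} (h : Ev R t n v) : n = 0 → v = t := by
  induction h with
  | var x => intro _; rfl
  | @nf f a v n h hn ih =>
    intro h0
    have e : ∀ i, n i = 0 := fun i => by
      have := Finset.single_le_sum (f := n) (fun _ _ => Nat.zero_le _) (Finset.mem_univ i)
      omega
    have e2 : v = a := funext fun i => ih i (e i)
    rw [e2]
  | red _ _ _ _ _ => intro h0; omega

theorem sum_update {k : ℕ} (n : Fin k → ℕ) (i : Fin k) (x : ℕ) :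
    ∑ j, Function.update n i x j + n i = ∑ j, n j + x := by
  rw [Finset.sum_update_of_mem (Finset.mem_univ i), ← Finset.add_sum_erase _ n (Finset.mem_univ i),
    Finset.sdiff_singleton_eq_erase]
  ring

theorem ev_update {k : ℕ} {a v : Fin k → Tm F ar} {n : Fin k → ℕ} {i : Fin k} {s : Tm F ar}
    {x : ℕ} (h : ∀ j, Ev R (a j) (n j) (v j)) (hs : Ev R s x (v i)) (j : Fin k) :
    Ev R (Function.update a i s j) (Function.update n i x j) (v j) := by
  by_cases hj : j = i
  · subst hj
    rw [Function.update_self, Function.update_self]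
    exact hs
  · rw [Function.update_of_ne hj, Function.update_of_ne hj]
    exact h j

/-- backwards along an innermost step -/
theorem IStep.ev_back (hR : IsTRS R) {t t' : Tm F ar} (h : IStep R t t') :
    ∀ {n : ℕ} {v : Tm F ar}, Ev R t' n v → Ev R t (n + 1) v := by
  classical
  induction h with
  | @root q hq σ h =>
    intro n v h'
    cases hq1 : q.1 with
    | var z => exact absurd hq1 ((hR q hq).1 z)
    | app f a =>
      rw [hq1] at h
      simp only [Tm.subst_app] at h ⊢
      have h1 : ∀ i, Normal R ((a i).subst σ) := fun i =>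
        h _ (TransGen.single ⟨f, _, i, rfl, rfl⟩)
      have h3 : Ev R (Tm.app f fun i => (a i).subst σ) (∑ i : Fin (ar f), 0 + 1 + n) v :=
        Ev.red (n := fun _ => 0) (fun i => ev_normal _ (h1 i)) ⟨q, hq, σ, by rw [hq1]; rfl, rfl⟩ h'
      simpa [add_comm] using h3
  | @arg f a i s h ih =>
    intro n v h'
    have key : ∀ {n' : Fin (ar f) → ℕ} {v' : Fin (ar f) → Tm F ar},
        (∀ j, Ev R (Function.update a i s j) (n' j) (v' j)) →
        (∀ j, Ev R (a j) (Function.update n' i (n' i + 1) j) (v' j)) ∧
        ∑ j, Function.update n' i (n' i + 1) j = ∑ j, n' j + 1 := by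
      intro n' v' h1
      constructor
      · have hi : Ev R (a i) (n' i + 1) (v' i) := by
          apply ih
          have := h1 i
          rwa [Function.update_self] at this
        intro j
        by_cases hj : j = i
        · subst hj
          rw [Function.update_self]
          exact hi
        · have := h1 j
          rw [Function.update_of_ne hj] at this ⊢
          exact this
      · have := sum_update n' i (n' i + 1)
        omega
    cases h' with
    | @nf _ _ v' n' h1 hn =>
      obtain ⟨h4, h6⟩ := key h1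
      have h5 := Ev.nf h4 hn
      rw [h6] at h5
      exact h5
    | @red _ _ v' n' m' y' w' h1 hr h2 =>
      obtain ⟨h4, h6⟩ := key h1
      have h5 := Ev.red h4 hr h2
      rw [h6] at h5
      have e : ∑ j, n' j + 1 + m' + 1 = ∑ j, n' j + 1 + 1 + m' := by ring
      rw [e]
      exact h5

/-- evaluation of a value `σ x` first, when `x` occurs once -/
theorem ev_split {σ : ℕ → Tm F ar} (hR : IsTRS R) {x : ℕ} (P : Tm F ar) : P.Linear → 0 < P.occ x →
    ∀ {n : ℕ} {v : Tm F ar}, Ev R (P.subst σ) n v →
    ∃ (k : ℕ) (w : Tm F ar) (m : ℕ), Ev R (σ x) k w ∧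
      Ev R (P.subst (Function.update σ x w)) m v ∧ m + k = n := by
  classical
  induction P with
  | var y =>
    intro _ hx n v h
    have hy : y = x := by
      by_contra hne
      simp [Tm.occ, hne] at hx
    subst hy
    refine ⟨n, v, 0, h, ?_, by omega⟩
    rw [Tm.subst_var, Function.update_self]
    exact ev_normal v (h.normal hR)
  | app f a ih =>
    intro hl hx n v h
    obtain ⟨i, hi⟩ := Tm.occ_app hx
    have key : ∀ {n' : Fin (ar f) → ℕ} {v' : Fin (ar f) → Tm F ar},
        (∀ j, Ev R ((a j).subst σ) (n' j) (v' j)) →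
        ∃ (k : ℕ) (w : Tm F ar) (m : Fin (ar f) → ℕ), Ev R (σ x) k w ∧
          (∀ j, Ev R ((a j).subst (Function.update σ x w)) (m j) (v' j)) ∧
          ∑ j, m j + k = ∑ j, n' j := by
      intro n' v' h1
      obtain ⟨k, w, m, g1, g2, g3⟩ := ih i (hl.arg i) hi (h1 i)
      refine ⟨k, w, Function.update n' i m, g1, ?_, ?_⟩
      · intro j
        by_cases hj : j = i
        · subst hj
          rw [Function.update_self]
          exact g2
        · rw [Function.update_of_ne hj]
          have e : (a j).subst (Function.update σ x w) = (a j).subst σ := by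
            refine Tm.subst_congr (a j) fun z hz => ?_
            have : z ≠ x := by
              rintro rfl
              exact hj (hl.disj hz hi)
            rw [Function.update_of_ne this]
          rw [e]
          exact h1 j
      · have := sum_update n' i m
        omega
    simp only [Tm.subst_app] at h ⊢
    cases h with
    | @nf _ _ v' n' h1 hn =>
      obtain ⟨k, w, m, g1, g2, g3⟩ := key h1
      exact ⟨k, w, _, g1, Ev.nf g2 hn, g3⟩
    | @red _ _ v' n' m' y' w' h1 hr h2 =>
      obtain ⟨k, w, m, g1, g2, g3⟩ := key h1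
      exact ⟨k, w, _, g1, Ev.red g2 hr h2, by omega⟩

/-- evaluation of a value `σ x` first, when it has only one normal form -/
theorem ev_subst {σ : ℕ → Tm F ar} {x : ℕ} {w : Tm F ar} {M : ℕ} (hw : Normal R w)
    (hx : ∀ k u, Ev R (σ x) k u → k ≤ M → u = w) (P : Tm F ar) :
    ∀ {n : ℕ} {v : Tm F ar}, Ev R (P.subst σ) n v → n ≤ M →
    ∃ m ≤ n, Ev R (P.subst (Function.update σ x w)) m v := by
  classical
  induction P with
  | var y =>
    intro n v h hn
    by_cases hy : y = x
    · subst hy
      have e := hx n v h hn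
      subst e
      refine ⟨0, Nat.zero_le _, ?_⟩
      rw [Tm.subst_var, Function.update_self]
      exact ev_normal v hw
    · refine ⟨n, le_rfl, ?_⟩
      rw [Tm.subst_var, Function.update_of_ne hy]
      exact h
  | app f a ih =>
    intro n v h hn
    simp only [Tm.subst_app] at h ⊢
    have hle : ∀ (p : Fin (ar f) → ℕ) (i : Fin (ar f)), p i ≤ ∑ j, p j := fun p i =>
      Finset.single_le_sum (f := p) (fun _ _ => Nat.zero_le _) (Finset.mem_univ i)
    cases h with
    | @nf _ _ v' n' h1 hn' =>
      choose k hk hk' using fun i => ih i (h1 i) ((hle n' i).trans hn)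
      exact ⟨_, Finset.sum_le_sum fun i _ => hk i, Ev.nf hk' hn'⟩
    | @red _ _ v' n' m' y' w' h1 hr h2 =>
      choose k hk hk' using fun i => ih i (h1 i) (by
        have := hle n' i
        omega)
      refine ⟨_, ?_, Ev.red hk' hr h2⟩
      have := Finset.sum_le_sum (s := Finset.univ) fun i _ => hk i
      omega

/-- if the values of the variables of `P` are normal forms then the first step is at a non-variable
position of `P` -/
theorem ev_first {σ : ℕ → Tm F ar} (P : Tm F ar) : (∀ x, 0 < P.occ x → Normal R (σ x)) →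
    ∀ {n : ℕ} {v : Tm F ar}, Ev R (P.subst σ) n v → 0 < n →
    ∃ (y : Tm F ar) (m : ℕ), NV R P σ y ∧ Ev R y m v ∧ m + 1 = n := by
  classical
  induction P with
  | var z =>
    intro hσ n v h hn
    have := (h.of_normal (hσ z (by simp [Tm.occ]))).1
    omega
  | app f a ih =>
    intro hσ n v h hn
    simp only [Tm.subst_app] at h
    have key : ∀ {n' : Fin (ar f) → ℕ} {v' : Fin (ar f) → Tm F ar},
        (∀ j, Ev R ((a j).subst σ) (n' j) (v' j)) → ∀ i, 0 < n' i →
        ∃ (y : Tm F ar) (m : Fin (ar f) → ℕ), NV R (a i) σ y ∧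
          (∀ j, Ev R (Function.update (fun j => (a j).subst σ) i y j) (m j) (v' j)) ∧
          ∑ j, m j + 1 = ∑ j, n' j := by
      intro n' v' h1 i hi
      obtain ⟨y, m, g1, g2, g3⟩ := ih i (fun x hx => hσ x (Tm.occ_arg hx)) (h1 i) hi
      refine ⟨y, Function.update n' i m, g1, fun j => ev_update h1 g2 j, ?_⟩
      have := sum_update n' i m
      omega
    cases h with
    | @nf _ _ v' n' h1 hn' =>
      obtain ⟨i, -, hi⟩ := Finset.exists_ne_zero_of_sum_ne_zero hn.ne'
      obtain ⟨y, m, g1, g2, g3⟩ := key h1 i (Nat.pos_of_ne_zero hi)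
      exact ⟨_, _, NV.arg i g1, Ev.nf g2 hn', g3⟩
    | @red _ _ v' n' m' y' w' h1 hr h2 =>
      by_cases h0 : ∀ i, n' i = 0
      · have e : v' = fun j => (a j).subst σ := funext fun j => (h1 j).zero (h0 j)
        subst e
        refine ⟨y', m', NV.root hr, h2, ?_⟩
        rw [Finset.sum_eq_zero fun i _ => h0 i]
        omega
      · push Not at h0
        obtain ⟨i, hi⟩ := h0
        obtain ⟨y, m, g1, g2, g3⟩ := key h1 i (Nat.pos_of_ne_zero hi)
        exact ⟨_, _, NV.arg i g1, Ev.red g2 hr h2, by omega⟩

/-- The main lemma. -/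
theorem same_value (hR : IsTRS R) (hL : LeftLinear R) (hC : ∀ t s, CriticalPair R t s → Dis R s t) :
    ∀ (N : ℕ) {x y : Tm F ar}, Dis R x y → ∀ {n m : ℕ} {v w : Tm F ar},
      Ev R x n v → Ev R y m w → n + m ≤ N → v = w := by
  classical
  intro N
  induction N using Nat.strong_induction_on with
  | _ N IH =>
    have hle : ∀ {k : ℕ} (p : Fin k → ℕ) (i : Fin k), p i ≤ ∑ j, p j := fun p i =>
      Finset.single_le_sum (f := p) (fun _ _ => Nat.zero_le _) (Finset.mem_univ i)
    -- two root steps of the same redex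
    have peak : ∀ {u y1 y2 : Tm F ar}, RootStep R u y1 → RootStep R u y2 →
        ∀ {n m : ℕ} {v w : Tm F ar}, Ev R y1 n v → Ev R y2 m w → n + m < N → v = w := by
      intro u y1 y2 h1 h2 n m v w g1 g2 hN
      obtain ⟨q, hq, σ, rfl, rfl⟩ := h1
      have hnv : NV R q.1 σ y2 := by
        cases hq1 : q.1 with
        | var z => exact absurd hq1 ((hR q hq).1 z)
        | app f a => exact NV.root (by rw [← hq1]; exact h2)
      exact IH (n + m) hN (overlapD hR hL hC hq hnv) g1 g2 le_rfl
    -- arguments with the same values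
    have args : ∀ {f : F} {a b : Fin (ar f) → Tm F ar},
        (∀ i {n m : ℕ} {v w : Tm F ar}, Ev R (a i) n v → Ev R (b i) m w → n + m ≤ N → v = w) →
        ∀ {n m : ℕ} {v w : Tm F ar}, Ev R (Tm.app f a) n v → Ev R (Tm.app f b) m w →
        n + m ≤ N → v = w := by
      intro f a b ih n m v w h1 h2 hN
      cases h1 with
      | @nf _ _ v1 n1 g1 k1 =>
        cases h2 with
        | @nf _ _ v2 n2 g2 k2 =>
          have e : v1 = v2 := funext fun i => ih i (g1 i) (g2 i) (by
            have := hle n1 i
            have := hle n2 i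
            omega)
          rw [e]
        | @red _ _ v2 n2 m2 y2 w2 g2 r2 s2 =>
          have e : v1 = v2 := funext fun i => ih i (g1 i) (g2 i) (by
            have := hle n1 i
            have := hle n2 i
            omega)
          subst e
          exact absurd r2 (k1 y2)
      | @red _ _ v1 n1 m1 y1 w1 g1 r1 s1 =>
        cases h2 with
        | @nf _ _ v2 n2 g2 k2 =>
          have e : v1 = v2 := funext fun i => ih i (g1 i) (g2 i) (by
            have := hle n1 i
            have := hle n2 i
            omega)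
          subst e
          exact absurd r1 (k2 y1)
        | @red _ _ v2 n2 m2 y2 w2 g2 r2 s2 =>
          have e : v1 = v2 := funext fun i => ih i (g1 i) (g2 i) (by
            have := hle n1 i
            have := hle n2 i
            omega)
          subst e
          exact peak r1 r2 s1 s2 (by omega)
    -- uniqueness
    have uniq : ∀ (t : Tm F ar) {n m : ℕ} {v w : Tm F ar}, Ev R t n v → Ev R t m w →
        n + m ≤ N → v = w := by
      intro t
      induction t with
      | var x =>
        intro n m v w h1 h2 _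
        cases h1
        cases h2
        rfl
      | app f a ih =>
        intro n m v w h1 h2 hN
        exact args (fun i => ih i) h1 h2 hN
    -- root steps
    have key : ∀ {q : Rule F ar}, q ∈ R → ∀ (σ : ℕ → Tm F ar) {n m : ℕ} {v w : Tm F ar},
        Ev R (q.1.subst σ) n v → Ev R (q.2.subst σ) m w → n + m ≤ N → v = w := by
      intro q hq σ n m v w h1 h2 hN
      by_cases hσ : ∀ x, 0 < q.1.occ x → Normal R (σ x)
      · have hn : 0 < n := by
          rcases Nat.eq_zero_or_pos n with h0 | h0
          · have e := h1.zero h0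
            have hnn := h1.normal hR
            rw [e] at hnn
            exact absurd (Step.root hq σ) (hnn _)
          · exact h0
        obtain ⟨y, k, g1, g2, g3⟩ := ev_first q.1 hσ h1 hn
        exact (IH (m + k) (by omega) (overlapD hR hL hC hq g1) h2 g2 le_rfl).symm
      · push Not at hσ
        obtain ⟨x, hx, hx'⟩ := hσ
        obtain ⟨k, u, n', g1, g2, g3⟩ := ev_split hR q.1 (hL q hq) hx h1
        have hk : 0 < k := by
          rcases Nat.eq_zero_or_pos k with h0 | h0
          · have e := g1.zero h0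
            have hnn := g1.normal hR
            rw [e] at hnn
            exact absurd hnn hx'
          · exact h0
        obtain ⟨m', hm', g4⟩ := ev_subst (σ := σ) (x := x) (M := m) (g1.normal hR)
          (fun k' u' hk' hk'' => uniq (σ x) hk' g1 (by omega)) q.2 h2 le_rfl
        exact IH (n' + m') (by omega) (Dis.fwd hq _) g2 g4 le_rfl
    intro x y h
    induction h with
    | refl t =>
      intro n m v w h1 h2 hN
      exact uniq t h1 h2 hN
    | fwd hq σ =>
      intro n m v w h1 h2 hN
      exact key hq σ h1 h2 hN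
    | bwd hq σ =>
      intro n m v w h1 h2 hN
      exact (key hq σ h2 h1 (by omega)).symm
    | args _ ih =>
      intro n m v w h1 h2 hN
      exact args (fun i _ _ _ _ g1 g2 g3 => ih i g1 g2 g3) h1 h2 hN

/-! ## The theorem -/

theorem IStep.step {t t' : Tm F ar} (h : IStep R t t') : Step R t t' := by
  induction h with
  | root hq σ _ => exact Step.root hq σ
  | arg a i _ ih => exact Step.arg a i ih

theorem ISteps.steps {t t' : Tm F ar} (h : ISteps R t t') : Steps R t t' :=
  ReflTransGen.mono (fun _ _ h => IStep.step h) _ _ h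

theorem ev_of_isteps (hR : IsTRS R) {t v : Tm F ar} (h1 : ISteps R t v) (h2 : Normal R v) :
    ∃ n, Ev R t n v := by
  induction h1 using ReflTransGen.head_induction_on with
  | refl => exact ⟨0, ev_normal v h2⟩
  | head h3 _ ih =>
    obtain ⟨n, h4⟩ := ih
    exact ⟨n + 1, h3.ev_back hR h4⟩

/-- If all reducts of `b` are innermost normalizing then they have one and the same normal form. -/
theorem unique_normal (hR : IsTRS R) (hL : LeftLinear R)
    (hC : ∀ t s, CriticalPair R t s → Dis R s t) {b : Tm F ar}
    (hb : ∀ b', Steps R b b' → InnNormalizing R b') :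
    ∃ v, Normal R v ∧ ∀ b', Steps R b b' → ISteps R b' v := by
  obtain ⟨v, h1, h2⟩ := hb b ReflTransGen.refl
  refine ⟨v, h2, fun b' hb' => ?_⟩
  induction hb' with
  | refl => exact h1
  | @tail x y h4 h5 ih =>
    obtain ⟨n, hn⟩ := ev_of_isteps hR ih h2
    obtain ⟨w, h6, h7⟩ := hb y (h4.tail h5)
    obtain ⟨m, hm⟩ := ev_of_isteps hR h6 h7
    have e := same_value hR hL hC (n + m) (Dis.of_step h5) hn hm le_rfl
    subst e
    exact h6

end Pool.Agent.Work.MP_d87e04_lc.WI
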